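import Pool.Agent.H126R2.CDC.Main

set_option autoImplicit false
set_option linter.unusedSectionVars false

/-!
Frames, suppressed graphs, semi-Kotzig graphs; a graph with a semi-Kotzig frame has no cut with
exactly one edge.
-/

namespace Pool.Agent.H203R2.SemiKotzig

open Finset
open Pool.Agent.H126R2.CDC
open Pool.Agent.Helper879.ECD (F2 cn)

section Defs

variable {V E : Type} [Fintype V] [DecidableEq V] [Fintype E] [DecidableEq E] (G : MGraph V E)

/-- `u` and `v` lie in the same component of the spanning subgraph with edge set `H`. -/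
def Joined (H : Finset E) (u v : V) : Prop :=
  Relation.ReflTransGen (fun a b => ∃ f ∈ H, G.ends f = s(a, b)) u v

open Classical in
/-- The degree in `G/H` of the vertex obtained by contracting the component of `H` that contains
`u`: the number of ends, in that component, of edges outside `H` (so a loop of `G/H` counts
twice). -/
noncomputable def contractedDeg (H : Finset E) (u : V) : ℕ :=
  ∑ v ∈ univ.filter (fun v => Joined G H u v), G.deg (univ \ H) v

/-- The spanning subgraph with edge set `H` is a frame: `G/H` is an even graph. -/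
def IsFrame (H : Finset E) : Prop := ∀ u, Even (contractedDeg G H u)

open Classical in
/-- The edges of the component of `H` that contains `u`. -/
noncomputable def comp (H : Finset E) (u : V) : Finset E :=
  H.filter (fun e => ∃ v ∈ G.ends e, Joined G H u v)

/-- `K` is the suppressed graph of the (component with) edge set `F`. Its vertices are (via `ι`)
the vertices of `F` whose degree in `F` is not 2; its edges are (via `π`) the classes of edges of
`F` under the equivalence generated by sharing a vertex of degree 2, i.e. the maximal paths whose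
internal vertices have degree 2; and each class has the same degrees at the vertices as the edge
of `K` that replaces it. -/
structure IsSuppressed (F : Finset E) {W P : Type} [Fintype W] [DecidableEq W] [Fintype P]
    [DecidableEq P] (K : MGraph W P) (ι : W → V) (π : E → P) : Prop where
  ι_inj : Function.Injective ι
  ι_range : ∀ v, (∃ x, ι x = v) ↔ (G.deg F v ≠ 0 ∧ G.deg F v ≠ 2)
  π_surj : ∀ p, ∃ e ∈ F, π e = p
  π_class : ∀ e ∈ F, ∀ f ∈ F, π e = π f ↔ Relation.ReflTransGen
    (fun a b => b ∈ F ∧ ∃ v, G.deg F v = 2 ∧ v ∈ G.ends a ∧ v ∈ G.ends b) e f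
  deg_eq : ∀ p x, K.deg {p} x = G.deg (F.filter (fun e => π e = p)) (ι x)

/-- Every vertex has degree 3. -/
def IsCubic : Prop := ∀ v, G.deg univ v = 3

/-- `C` is the edge set of a Hamilton circuit. -/
def IsHamilton (C : Finset E) : Prop := G.IsCircuit C ∧ ∀ v, G.deg C v = 2

/-- `c` is a (proper) 3-edge-colouring of a cubic graph: every colour appears exactly once at
every vertex. -/
def Is3EdgeColouring (c : E → ZMod 3) : Prop :=
  ∀ μ v, G.deg (univ.filter (fun e => c e = μ)) v = 1

/-- Condition (*): for each `μ ∈ {1, 2}` the edges of colours `0` and `μ` form a Hamilton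
circuit. -/
def Star (c : E → ZMod 3) : Prop :=
  ∀ μ : ZMod 3, (μ = 1 ∨ μ = 2) → IsHamilton G (univ.filter (fun e => c e = 0 ∨ c e = μ))

/-- the colouring obtained by exchanging the colours 1 and 2 on the edges of `S` -/
def exchange (S : Finset E) (c : E → ZMod 3) (e : E) : ZMod 3 :=
  if e ∈ S then (if c e = 1 then 2 else if c e = 2 then 1 else c e) else c e

/-- `G` is a semi-Kotzig (cubic) graph. -/
def IsSemiKotzig : Prop :=
  IsCubic G ∧ ∃ c : E → ZMod 3, Is3EdgeColouring G c ∧ Star G c ∧
    ∀ S : Finset E, (∀ e ∈ S, c e = 1 ∨ c e = 2) → G.IsEven S → Star G (exchange S c)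

/-- The spanning subgraph with edge set `H` is a semi-Kotzig frame: it is a frame, and each of its
components is a circuit or has a suppressed graph that is semi-Kotzig. -/
def IsSemiKotzigFrame (H : Finset E) : Prop :=
  IsFrame G H ∧ ∀ u, G.IsCircuit (comp G H u) ∨
    ∃ (n m : ℕ) (K : MGraph (Fin n) (Fin m)) (ι : Fin n → V) (π : E → Fin m),
      IsSuppressed G (comp G H u) K ι π ∧ IsSemiKotzig K

end Defs

section Proofs

variable {V E : Type} [Fintype V] [DecidableEq V] [Fintype E] [DecidableEq E] (G : MGraph V E)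

lemma ep_pos {e : E} {v : V} (h : v ∈ G.ends e) : 0 < G.ep e v := by
  unfold MGraph.ep
  rw [if_pos h]
  omega

lemma deg_mono {C D : Finset E} (h : C ⊆ D) (v : V) : G.deg C v ≤ G.deg D v := by
  have := G.deg_sdiff h v
  omega

lemma pre_even {F : Finset E} {W P : Type} [Fintype W] [DecidableEq W] [Fintype P]
    [DecidableEq P] {K : MGraph W P} {ι : W → V} {π : E → P} (h : IsSuppressed G F K ι π)
    (C : Finset P) (hC : K.IsEven C) : G.IsEven (F.filter (fun e => π e ∈ C)) := by
  intro v
  by_cases h0 : G.deg F v = 0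
  · have := deg_mono G (Finset.filter_subset (fun e => π e ∈ C) F) v
    have h1 : G.deg (F.filter (fun e => π e ∈ C)) v = 0 := by omega
    rw [h1]; exact ⟨0, rfl⟩
  · by_cases h2 : G.deg F v = 2
    · by_cases hex : ∃ e ∈ F.filter (fun e => π e ∈ C), v ∈ G.ends e
      · obtain ⟨e, he, hev⟩ := hex
        have heF := (Finset.mem_filter.1 he).1
        have heC := (Finset.mem_filter.1 he).2
        have hall : ∀ f ∈ F, v ∈ G.ends f → π f ∈ C := by
          intro f hf hfv
          have : π e = π f := (h.π_class e heF f hf).2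
            (Relation.ReflTransGen.single ⟨hf, v, h2, hev, hfv⟩)
          rw [← this]; exact heC
        have hsame : G.deg (F.filter (fun e => π e ∈ C)) v = G.deg F v := by
          rw [G.deg_eq_sum, G.deg_eq_sum]
          apply Finset.sum_subset (Finset.filter_subset _ _)
          intro f hf hf'
          apply G.ep_eq_zero
          intro hfv
          exact hf' (Finset.mem_filter.2 ⟨hf, hall f hf hfv⟩)
        rw [hsame, h2]
        exact ⟨1, rfl⟩
      · push Not at hex
        have h1 : G.deg (F.filter (fun e => π e ∈ C)) v = 0 := by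
          rw [G.deg_eq_sum]
          exact Finset.sum_eq_zero (fun e he => G.ep_eq_zero (hex e he))
        rw [h1]; exact ⟨0, rfl⟩
    · obtain ⟨x, rfl⟩ := (h.ι_range v).2 ⟨h0, h2⟩
      have h1 : G.deg (F.filter (fun e => π e ∈ C)) (ι x) = K.deg C x := by
        rw [G.deg_eq_sum, Finset.sum_filter, K.deg_eq_sum]
        have h3 : ∀ p ∈ C, K.ep p x = ∑ e ∈ F, (if π e = p then G.ep e (ι x) else 0) := by
          intro p _
          have h4 := h.deg_eq p x
          rw [K.deg_eq_sum, Finset.sum_singleton, G.deg_eq_sum, Finset.sum_filter] at h4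
          exact h4
        rw [Finset.sum_congr rfl h3, Finset.sum_comm]
        apply Finset.sum_congr rfl
        intro e _
        rw [Finset.sum_ite_eq]
      rw [h1]
      exact hC x

lemma semiKotzig_even {W P : Type} [Fintype W] [DecidableEq W] [Fintype P]
    [DecidableEq P] {K : MGraph W P} (h : IsSemiKotzig K) (p : P) :
    ∃ C, K.IsEven C ∧ p ∈ C := by
  obtain ⟨_, c, _, hs, _⟩ := h
  have h3 : ∀ x : ZMod 3, (x = 0 ∨ x = 1) ∨ (x = 0 ∨ x = 2) := by decide
  rcases h3 (c p) with h | h
  · exact ⟨_, (hs 1 (Or.inl rfl)).1.isEven, Finset.mem_filter.2 ⟨Finset.mem_univ _, h⟩⟩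
  · exact ⟨_, (hs 2 (Or.inr rfl)).1.isEven, Finset.mem_filter.2 ⟨Finset.mem_univ _, h⟩⟩

/-- every edge of a semi-Kotzig frame lies in an even subset of the graph -/
lemma frame_edge {H : Finset E} (h : IsSemiKotzigFrame G H) (e : E) (he : e ∈ H) :
    ∃ D, G.IsEven D ∧ e ∈ D := by
  classical
  obtain ⟨u, hu⟩ : ∃ w, w ∈ G.ends e := by
    induction h : G.ends e using Sym2.ind with
    | _ x y => exact ⟨x, by simp⟩
  have hmem : e ∈ comp G H u := Finset.mem_filter.2 ⟨he, u, hu, Relation.ReflTransGen.refl⟩
  rcases h.2 u with h1 | ⟨n, m, K, ι, π, h1, h2⟩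
  · exact ⟨_, h1.isEven, hmem⟩
  · obtain ⟨C, hC, hp⟩ := semiKotzig_even h2 (π e)
    exact ⟨_, pre_even G h1 C hC, Finset.mem_filter.2 ⟨hmem, hp⟩⟩

lemma sum_deg_parity (v : E × Bool → V) (hv : ∀ e, G.ends e = s(v (e, false), v (e, true)))
    (D : Finset E) (X : Finset V) :
    ((∑ w ∈ X, G.deg D w : ℕ) : F2) =
      ∑ e ∈ D, ((if v (e, false) ∈ X then (1 : F2) else 0) +
        (if v (e, true) ∈ X then (1 : F2) else 0)) := by
  have h1 : ∀ w ∈ X, G.deg D w = ∑ e ∈ D, G.ep e w := fun w _ => G.deg_eq_sum D w
  rw [Finset.sum_congr rfl h1, Finset.sum_comm, Nat.cast_sum]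
  apply Finset.sum_congr rfl
  intro e _
  have h2 : ∀ w ∈ X, G.ep e w = (if v (e, false) = w then 1 else 0) +
      (if v (e, true) = w then 1 else 0) := fun w _ => G.ep_eq (hv e) w
  rw [Finset.sum_congr rfl h2, Finset.sum_add_distrib, Finset.sum_ite_eq, Finset.sum_ite_eq]
  push_cast
  rfl

lemma cut_parity (v : E × Bool → V) (hv : ∀ e, G.ends e = s(v (e, false), v (e, true)))
    (D : Finset E) (X : Finset V) (hD : Even (∑ w ∈ X, G.deg D w)) (e : E) (he : e ∈ D)
    (hcut : ∀ f, ¬ (v (f, false) ∈ X ↔ v (f, true) ∈ X) ↔ f = e) : False := by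
  have h1 := G.isEven_iff v hv D
  have h2 : ((∑ w ∈ X, G.deg D w : ℕ) : F2) = 0 := (ZMod.natCast_eq_zero_iff_even).2 hD
  rw [sum_deg_parity G v hv D X] at h2
  have h3 : ∀ f ∈ D, ((if v (f, false) ∈ X then (1 : F2) else 0) +
      (if v (f, true) ∈ X then (1 : F2) else 0)) = if f = e then 1 else 0 := by
    intro f _
    by_cases hfe : f = e
    · rw [if_pos hfe]
      have h4 := (hcut f).2 hfe
      by_cases h5 : v (f, false) ∈ X
      · have h6 : v (f, true) ∉ X := fun h6 => h4 ⟨fun _ => h6, fun _ => h5⟩
        simp [h5, h6]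
      · have h6 : v (f, true) ∈ X := by
          by_contra h6; exact h4 ⟨fun h => absurd h h5, fun h => absurd h h6⟩
        simp [h5, h6]
    · rw [if_neg hfe]
      have h4 := not_not.1 (fun h => hfe ((hcut f).1 h))
      by_cases h5 : v (f, false) ∈ X
      · have h6 := h4.1 h5
        rw [if_pos h5, if_pos h6]
        exact Pool.Agent.Helper879.ECD.f2_add_self 1
      · have h6 : v (f, true) ∉ X := fun h => h5 (h4.2 h)
        rw [if_neg h5, if_neg h6, add_zero]
  rw [Finset.sum_congr rfl h3, Finset.sum_ite_eq' D e, if_pos he] at h2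
  exact absurd h2 (by decide)

lemma joined_symm {H : Finset E} {u v : V} (h : Joined G H u v) : Joined G H v u := by
  unfold Joined at *
  induction h with
  | refl => exact Relation.ReflTransGen.refl
  | tail _ h2 ih =>
    obtain ⟨f, hf, hf2⟩ := h2
    exact Relation.ReflTransGen.head ⟨f, hf, by rw [hf2, Sym2.eq_swap]⟩ ih

lemma joined_trans {H : Finset E} {u v w : V} (h : Joined G H u v) (h2 : Joined G H v w) :
    Joined G H u w := Relation.ReflTransGen.trans h h2

/-- a vertex set that is closed under `H` has an even number of ends of edges outside `H` -/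
lemma closed_even {H : Finset E} (h : IsFrame G H) :
    ∀ (n : ℕ) (X : Finset V), X.card = n → (∀ u ∈ X, ∀ w, Joined G H u w → w ∈ X) →
      Even (∑ w ∈ X, G.deg (univ \ H) w) := by
  classical
  intro n
  induction n using Nat.strong_induction_on with
  | _ n ih =>
  intro X hn hX
  by_cases hne : X.Nonempty
  · obtain ⟨u, hu⟩ := hne
    let Y : Finset V := univ.filter (fun v => Joined G H u v)
    have hYX : Y ⊆ X := by
      intro w hw
      exact hX u hu w (Finset.mem_filter.1 hw).2
    have huY : u ∈ Y := Finset.mem_filter.2 ⟨Finset.mem_univ _, Relation.ReflTransGen.refl⟩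
    have hlt : (X \ Y).card < n := by
      rw [← hn]
      apply Finset.card_lt_card
      rw [Finset.ssubset_iff_of_subset Finset.sdiff_subset]
      exact ⟨u, hu, fun h => (Finset.mem_sdiff.1 h).2 huY⟩
    have h1 := ih _ hlt (X \ Y) rfl (by
      intro a ha w hw
      rw [Finset.mem_sdiff] at ha ⊢
      refine ⟨hX a ha.1 w hw, fun h2 => ha.2 ?_⟩
      have h3 : Joined G H u w := (Finset.mem_filter.1 h2).2
      exact Finset.mem_filter.2 ⟨Finset.mem_univ _, joined_trans G h3 (joined_symm G hw)⟩)
    have h2 : Even (∑ w ∈ Y, G.deg (univ \ H) w) := by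
      have := h u
      unfold contractedDeg at this
      convert this using 2
    rw [← Finset.sum_sdiff hYX]
    exact h1.add h2
  · rw [Finset.not_nonempty_iff_eq_empty] at hne
    subst hne
    simp

theorem no_one_cut {H : Finset E} (h : IsSemiKotzigFrame G H) (v : E × Bool → V)
    (hv : ∀ e, G.ends e = s(v (e, false), v (e, true))) (X : Finset V) :
    cn (fun e => v (e, false)) (fun e => v (e, true)) univ X ≠ 1 := by
  classical
  intro hc
  unfold cn at hc
  obtain ⟨e, he⟩ := Finset.card_eq_one.1 hc
  have hcut : ∀ f, ¬ (v (f, false) ∈ X ↔ v (f, true) ∈ X) ↔ f = e := by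
    intro f
    have h3 : f ∈ univ.filter (fun e => ¬ (v (e, false) ∈ X ↔ v (e, true) ∈ X)) ↔
        f ∈ ({e} : Finset E) := by rw [he]
    simpa using h3
  by_cases heH : e ∈ H
  · obtain ⟨D, hD, heD⟩ := frame_edge G h e heH
    exact cut_parity G v hv D X (Finset.even_sum _ (fun w _ => hD w)) e heD hcut
  · refine cut_parity G v hv (univ \ H) X ?_ e (by simp [heH]) hcut
    refine closed_even G h.1 _ X rfl ?_
    intro a ha w hw
    unfold Joined at hw
    induction hw with
    | refl => exact ha
    | tail _ h2 ih =>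
      rename_i b c _
      obtain ⟨f, hf, hf2⟩ := h2
      have hfe : f ≠ e := fun h => heH (h ▸ hf)
      have h4 := not_not.1 (fun h => hfe ((hcut f).1 h))
      have h5 := hv f
      rw [hf2, Sym2.eq_iff] at h5
      rcases h5 with ⟨h6, h7⟩ | ⟨h6, h7⟩
      · rw [h7]; exact h4.1 (h6 ▸ ih)
      · rw [h7]; exact h4.2 (h6 ▸ ih)

theorem eight_cover {H : Finset E} (h : IsSemiKotzigFrame G H) :
    ∃ C : Fin 8 → Finset E, (∀ i, G.IsEven (C i)) ∧
      ∀ e, (univ.filter (fun i => e ∈ C i)).card = 2 := by
  classical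
  obtain ⟨v, hv⟩ := G.exists_halves
  obtain ⟨S, hS1, hS2⟩ := exists_double_cover v (no_one_cut G h v hv)
  have hev : ∀ c : T3, G.IsEven (univ.filter (fun e => c ∈ S e)) := by
    intro c
    rw [G.isEven_iff v hv]
    have h1 := hS2 c
    have h2 : (fun e => if e ∈ univ.filter (fun e => c ∈ S e) then (1 : F2) else 0) =
        (fun e => if c ∈ S e then 1 else 0) := by
      ext e; simp
    rw [h2]
    exact h1
  have hcard : Fintype.card T3 = 8 := rfl
  let φ : Fin 8 ≃ T3 := (Fintype.equivFinOfCardEq hcard).symm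
  refine ⟨fun i => univ.filter (fun e => φ i ∈ S e), fun i => hev _, ?_⟩
  intro e
  rw [← hS1 e]
  apply Finset.card_bij (fun i _ => φ i)
  · intro i hi
    simpa using hi
  · intro i _ j _ hij
    exact φ.injective hij
  · intro c hc
    exact ⟨φ.symm c, by simpa using hc, by simp⟩

theorem bridgeless {H : Finset E} (h : IsSemiKotzigFrame G H) : G.Bridgeless := by
  classical
  obtain ⟨C, hC1, hC2⟩ := eight_cover G h
  intro e
  have h1 : (univ.filter (fun i => e ∈ C i)).Nonempty := by
    rw [← Finset.card_pos, hC2 e]; norm_num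
  obtain ⟨i, hi⟩ := h1
  have hi' : e ∈ C i := by simpa using hi
  obtain ⟨F, hF1, hF2⟩ := G.decompose _ _ rfl (hC1 i)
  have h2 := hF2 e
  rw [if_pos hi'] at h2
  obtain ⟨D, hD1, hD2⟩ := Multiset.countP_pos.1 (by rw [h2]; norm_num :
    0 < F.countP (fun C => e ∈ C))
  exact ⟨D, hF1 D hD1, hD2⟩

theorem main {H : Finset E} (h : IsSemiKotzigFrame G H) :
    (∃ F : Multiset (Finset E), G.IsCDC F) ∧
      ∃ C : Fin 8 → Finset E, (∀ i, G.IsEven (C i)) ∧
        ∀ e, (univ.filter (fun i => e ∈ C i)).card = 2 :=
  ⟨G.exists_cdc (bridgeless G h), eight_cover G h⟩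

end Proofs

end Pool.Agent.H203R2.SemiKotzig
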